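import Pool.Agent.Helper79.KN.Defs
import Pool.Agent.Helper31.KM.FullL

/-!
The derivations preserving the vanishing ideal of a compatible family with a regular element and a strongly irreducible
member (any index type).
-/

set_option autoImplicit false

open Matrix H77MT

namespace Pool.Agent.Helper31.KN

open Pool.Agent.Helper79.KN
open Pool.Agent.Helper31.KM (LL_base exists_diag exists_char sl_of mp mem_mp mp_mul mp_one dd)


variable {K : Type} [Field K] [IsAlgClosed K] [CharZero K] {Γ X n : Type} [Group Γ] [DecidableEq X] [Fintype X]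
  [Fintype n] [DecidableEq n]

omit [IsAlgClosed K] [CharZero K] [Fintype X] in
lemma mat_mul (ρ : Rep Γ X n K) (a b : Γ) [Fintype X] : mat ρ (a * b) = mat ρ a * mat ρ b := by
  unfold mat
  rw [← blockDiagonal_mul]
  congr 1
  funext x
  rw [map_mul, Units.val_mul]

omit [IsAlgClosed K] [CharZero K] [Fintype X] in
lemma mat_one (ρ : Rep Γ X n K) : mat ρ 1 = 1 := by
  unfold mat
  rw [← blockDiagonal_one]
  congr 1
  funext x
  rw [map_one, Units.val_one]
  rfl

/-- The projection of the derivations to one eigenspace contains all matrices of trace zero. -/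
theorem full_l (ρ : Rep Γ X n K) (Δ : Subgroup Γ) (hΔ : Δ.FiniteIndex)
    -- an element with independent eigenvalues
    {γ : Γ} (hγ : γ ∈ Δ) (u : X → n → K)
    (hu : ∀ x, (ρ x γ : Matrix (n) (n) K).charpoly = ∏ i, (Polynomial.X - Polynomial.C (u x i)))
    (hind : ∀ (x : X) (m : n → ℤ), ∏ i, u x i ^ m i = 1 → ∀ i j, m i = m j)
    -- strongly irreducible
    (x : X) (hirr : ∀ Δ' : Subgroup Γ, Δ'.FiniteIndex → ∀ W : Submodule K (n → K),
      (∀ γ ∈ Δ', ∀ w ∈ W, (ρ x γ : Matrix (n) (n) K) *ᵥ w ∈ W) → W = ⊥ ∨ W = ⊤) :
    ∀ c : Matrix (n) (n) K, c.trace = 0 → ∃ M : X → Matrix (n) (n) K,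
      M x = c ∧ blockDiagonal M ∈ LL (img ρ Δ) := by
  classical
  have hu0 : ∀ x i, u x i ≠ 0 := by
    intro x i h0
    have h1 : (ρ x γ : Matrix (n) (n) K).charpoly.eval 0 = 0 := by
      rw [hu x, Polynomial.eval_prod]
      exact Finset.prod_eq_zero (Finset.mem_univ i) (by simp [h0])
    rw [Matrix.eval_charpoly] at h1
    have h2 : (-(ρ x γ : Matrix (n) (n) K)).det = 0 := by
      simpa using h1
    rw [Matrix.det_neg] at h2
    have h3 : IsUnit (ρ x γ : Matrix (n) (n) K).det :=
      (Matrix.isUnit_iff_isUnit_det _).1 (ρ x γ).isUnit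
    rcases mul_eq_zero.1 h2 with h | h
    · exact pow_ne_zero _ (neg_ne_zero.2 one_ne_zero) h
    · exact h3.ne_zero h
  have hinj : ∀ x, Function.Injective (u x) := by
    intro x i j hij
    by_contra hne
    have h1 := hind x (fun k => (if k = i then 1 else 0) - (if k = j then 1 else 0)) (by
      have e : ∀ k, u x k ^ (((if k = i then 1 else 0) - (if k = j then 1 else 0) : ℤ)) =
          (if k = i then u x i else 1) / (if k = j then u x j else 1) := by
        intro k
        by_cases hki : k = i
        · subst hki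
          simp [hne]
        · by_cases hkj : k = j
          · subst hkj
            simp [hki]
          · simp [hki, hkj]
      rw [Finset.prod_congr rfl fun k _ => e k, Finset.prod_div_distrib]
      simp only [Finset.prod_ite_eq', Finset.mem_univ, if_true]
      rw [hij, div_self (hu0 x j)]) i j
    simp [hne, Ne.symm hne] at h1
  choose P P' hPP hPP' hA using fun x => exists_diag (hu x) (hinj x)
  have hB : blockDiagonal P * blockDiagonal P' = (1 : Matrix (n × X) (n × X) K) := by
    rw [← blockDiagonal_mul, ← blockDiagonal_one]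
    congr 1
    funext x
    exact hPP x
  have hmul : ∀ s ∈ img ρ Δ, ∀ t ∈ img ρ Δ, s * t ∈ img ρ Δ := by
    rintro _ ⟨a, ha, rfl⟩ _ ⟨b, hb, rfl⟩
    exact ⟨a * b, Δ.mul_mem ha hb, by rw [mat_mul]⟩
  -- powers of the regular element
  have hpow : ∀ (x : X) (m : ℕ), (ρ x (γ ^ m) : Matrix (n) (n) K) =
      P x * diagonal (fun i => u x i ^ m) * P' x := by
    intro x m
    induction m with
    | zero =>
      rw [pow_zero, map_one, Units.val_one]
      have : (diagonal fun i => u x i ^ 0 : Matrix (n) (n) K) = 1 := by
        rw [← diagonal_one]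
        congr 1
        funext i
        exact pow_zero _
      rw [this, Matrix.mul_one, hPP]
    | succ m ih =>
      rw [pow_succ, map_mul, Units.val_mul, ih, hA x]
      have : (diagonal fun i => u x i ^ (m + 1) : Matrix (n) (n) K) =
          diagonal (fun i => u x i ^ m) * diagonal (u x) := by
        rw [diagonal_mul_diagonal]
        congr 1
        funext i
        exact pow_succ _ _
      rw [this]
      calc P x * diagonal (fun i => u x i ^ m) * P' x * (P x * diagonal (u x) * P' x)
          = P x * diagonal (fun i => u x i ^ m) * (P' x * P x) * diagonal (u x) * P' x := by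
            simp only [Matrix.mul_assoc]
        _ = P x * (diagonal (fun i => u x i ^ m) * diagonal (u x)) * P' x := by
            rw [hPP', Matrix.mul_one]
            simp only [Matrix.mul_assoc]
  have hpow' : ∀ m : ℕ, mat ρ (γ ^ m) = blockDiagonal P *
      diagonal (fun q : n × X => u q.2 q.1 ^ m) * blockDiagonal P' := by
    intro m
    have : (diagonal (fun q : n × X => u q.2 q.1 ^ m) : Matrix (n × X) (n × X) K) =
        blockDiagonal (fun x => diagonal (fun i => u x i ^ m)) := by
      rw [blockDiagonal_diagonal]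
    rw [this, ← blockDiagonal_mul, ← blockDiagonal_mul]
    unfold mat
    congr 1
    funext x
    exact hpow x m
  let a : n × X → Kˣ := fun q => Units.mk0 (u q.2 q.1) (hu0 q.2 q.1)
  have htor : ∀ χ : Additive Kˣ →+ ℚ, blockDiagonal (fun x => P x *
      diagonal (fun i => ((χ (Additive.ofMul (a (i, x))) : ℚ) : K)) * P' x) ∈ LL (img ρ Δ) := by
    intro χ
    have h1 := torus_mem_LL (RingHom.id K)
      (S := {s : Matrix (n × X) (n × X) K | blockDiagonal P * s * blockDiagonal P' ∈ img ρ Δ})
      a (by
        rintro s ⟨δ, hδ, hs⟩ m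
        refine ⟨δ * γ ^ m, Δ.mul_mem hδ (Δ.pow_mem hγ m), ?_⟩
        have hB' : blockDiagonal P' * blockDiagonal P = (1 : Matrix (n × X) (n × X) K) :=
          mul_eq_one_comm.mp hB
        rw [mat_mul, ← hs, hpow' m]
        calc blockDiagonal P * (s * diagonal fun i => (RingHom.id K) (a i : K) ^ m) *
              blockDiagonal P'
            = blockDiagonal P * s * (1 : Matrix (n × X) (n × X) K) *
              diagonal (fun q : n × X => u q.2 q.1 ^ m) * blockDiagonal P' := by
              rw [Matrix.mul_one]
              simp only [Matrix.mul_assoc]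
              rfl
          _ = _ := by
              rw [← hB']
              simp only [Matrix.mul_assoc]) χ
    have h2 := LL_base hB h1
    have : (diagonal (fun q : n × X => ((χ (Additive.ofMul (a q)) : ℚ) : K)) :
        Matrix (n × X) (n × X) K) =
        blockDiagonal (fun x => diagonal (fun i => ((χ (Additive.ofMul (a (i, x))) : ℚ) : K))) := by
      rw [blockDiagonal_diagonal]
    rw [this, ← blockDiagonal_mul, ← blockDiagonal_mul] at h2
    exact h2
  let L : Submodule K (Matrix (n) (n) K) :=
    { carrier := {c | ∃ M : X → Matrix (n) (n) K, M x = P x * c * P' x ∧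
        blockDiagonal M ∈ LL (img ρ Δ)}
      add_mem' := by
        rintro c d ⟨M, hM, hM'⟩ ⟨M₂, hM₂, hM₂'⟩
        refine ⟨M + M₂, ?_, ?_⟩
        · rw [Pi.add_apply, hM, hM₂, Matrix.mul_add, Matrix.add_mul]
        · rw [blockDiagonal_add]
          exact (LL (img ρ Δ)).add_mem hM' hM₂'
      zero_mem' := ⟨0, by simp, by rw [blockDiagonal_zero]; exact (LL (img ρ Δ)).zero_mem⟩
      smul_mem' := by
        rintro r c ⟨M, hM, hM'⟩
        refine ⟨r • M, ?_, ?_⟩
        · rw [Pi.smul_apply, hM, Matrix.mul_smul, Matrix.smul_mul]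
        · rw [blockDiagonal_smul]
          exact (LL (img ρ Δ)).smul_mem r hM' }
  have memL : ∀ c, c ∈ L ↔ ∃ M : X → Matrix (n) (n) K, M x = P x * c * P' x ∧
        blockDiagonal M ∈ LL (img ρ Δ) := fun _ => Iff.rfl
  let σ : Γ →* Matrix (n) (n) K :=
    { toFun := fun δ => P' x * (ρ x δ : Matrix (n) (n) K) * P x
      map_one' := by rw [map_one, Units.val_one, Matrix.mul_one, hPP']
      map_mul' := by
        intro δ δ'
        rw [map_mul, Units.val_mul]
        calc P' x * ((ρ x δ : Matrix (n) (n) K) * (ρ x δ' : Matrix (n) (n) K)) * P x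
            = P' x * (ρ x δ : Matrix (n) (n) K) * 1 *
              (ρ x δ' : Matrix (n) (n) K) * P x := by
              rw [Matrix.mul_one]
              simp only [Matrix.mul_assoc]
          _ = _ := by
              rw [← hPP x]
              simp only [Matrix.mul_assoc] }
  have hσ : ∀ δ, σ δ = P' x * (ρ x δ : Matrix (n) (n) K) * P x := fun _ => rfl
  have key := sl_of Δ hΔ σ L (by
      intro c hc d hd
      obtain ⟨M, hM, hM'⟩ := (memL c).1 hc
      obtain ⟨M₂, hM₂, hM₂'⟩ := (memL d).1 hd
      refine (memL _).2 ⟨fun y => M y * M₂ y - M₂ y * M y, ?_, ?_⟩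
      · show M x * M₂ x - M₂ x * M x = _
        rw [hM, hM₂, Matrix.mul_sub, Matrix.sub_mul]
        congr 1
        · calc P x * c * P' x * (P x * d * P' x) = P x * c * (P' x * P x) * d * P' x := by
                simp only [Matrix.mul_assoc]
            _ = P x * (c * d) * P' x := by
                rw [hPP', Matrix.mul_one]
                simp only [Matrix.mul_assoc]
        · calc P x * d * P' x * (P x * c * P' x) = P x * d * (P' x * P x) * c * P' x := by
                simp only [Matrix.mul_assoc]
            _ = P x * (d * c) * P' x := by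
                rw [hPP', Matrix.mul_one]
                simp only [Matrix.mul_assoc]
      · have e : blockDiagonal (fun y => M y * M₂ y - M₂ y * M y) =
            blockDiagonal M * blockDiagonal M₂ - blockDiagonal M₂ * blockDiagonal M := by
          rw [← blockDiagonal_mul, ← blockDiagonal_mul, ← blockDiagonal_sub]
          rfl
        rw [e]
        exact LL_bracket hM' hM₂')
    (by
      intro i j hij
      obtain ⟨χ, hχ⟩ := exists_char (fun i => a (i, x)) (by
        intro m hm
        apply hind x m
        have := congrArg (fun z : Kˣ => (z : K)) hm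
        simp only [Units.coe_prod, Units.val_zpow_eq_zpow_val, Units.val_one] at this
        exact this) (fun k => (if k = i then 1 else 0) - (if k = j then 1 else 0)) (by
          rw [Finset.sum_sub_distrib]
          simp)
      refine (memL _).2 ⟨_, ?_, htor χ⟩
      show P x * diagonal (fun i => ((χ (Additive.ofMul (a (i, x))) : ℚ) : K)) * P' x = _
      congr 3
      funext k
      rw [hχ k]
      simp only [dd]
      split_ifs <;> simp)
    (by
      intro δ hδ c hc
      obtain ⟨M, hM, hM'⟩ := (memL c).1 hc
      refine (memL _).2 ⟨fun y => (ρ y δ⁻¹ : Matrix (n) (n) K) * M y *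
        (ρ y δ : Matrix (n) (n) K), ?_, ?_⟩
      · show (ρ x δ⁻¹ : Matrix (n) (n) K) * M x * (ρ x δ : Matrix (n) (n) K) = _
        rw [hM, hσ, hσ]
        calc (ρ x δ⁻¹ : Matrix (n) (n) K) * (P x * c * P' x) *
              (ρ x δ : Matrix (n) (n) K)
            = 1 * (ρ x δ⁻¹ : Matrix (n) (n) K) * P x * c * P' x *
              (ρ x δ : Matrix (n) (n) K) * 1 := by
              rw [Matrix.mul_one, Matrix.one_mul]
              simp only [Matrix.mul_assoc]
          _ = _ := by
              rw [← hPP x]
              simp only [Matrix.mul_assoc]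
      · have h1 : mat ρ δ * mat ρ δ⁻¹ = 1 := by rw [← mat_mul, mul_inv_cancel, mat_one]
        have h2 := LL_conj hmul hM' (g := mat ρ δ) (g' := mat ρ δ⁻¹) ⟨δ, hδ, rfl⟩
          ⟨δ⁻¹, Δ.inv_mem hδ, rfl⟩ h1
        unfold mat at h2
        rw [← blockDiagonal_mul, ← blockDiagonal_mul] at h2
        exact h2)
    (by
      intro Δ' hΔ' W hW
      have e1 : P' x * P x = 1 := hPP' x
      have e2 : P x * P' x = 1 := hPP x
      rcases hirr Δ' hΔ' (mp (P x) W) (by
        intro δ hδ w hw
        obtain ⟨v, hv, rfl⟩ := mem_mp.1 hw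
        refine mem_mp.2 ⟨σ δ *ᵥ v, hW δ hδ v hv, ?_⟩
        rw [hσ, mulVec_mulVec, mulVec_mulVec, ← Matrix.mul_assoc, ← Matrix.mul_assoc, e2,
          Matrix.one_mul]) with h | h
      · left
        rw [← mp_one W, ← e1, mp_mul, h]
        simp [mp]
      · right
        rw [← mp_one W, ← e1, mp_mul, h, eq_top_iff]
        intro v _
        refine mem_mp.2 ⟨P x *ᵥ v, Submodule.mem_top, ?_⟩
        rw [mulVec_mulVec, e1, one_mulVec])
  intro c hc
  have h1 := key (P' x * c * P x) (by
    rw [Matrix.trace_mul_comm, ← Matrix.mul_assoc, hPP, Matrix.one_mul]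
    exact hc)
  obtain ⟨M, hM, hM'⟩ := (memL _).1 h1
  refine ⟨M, ?_, hM'⟩
  rw [hM]
  calc P x * (P' x * c * P x) * P' x = (P x * P' x) * c * (P x * P' x) := by
        simp only [Matrix.mul_assoc]
    _ = c := by rw [hPP, Matrix.one_mul, Matrix.mul_one]

end Pool.Agent.Helper31.KN
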